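import Pool.Agent.Helper278.Wot
import Pool.Agent.W662.KKS.Stmts

/-!
Project KKS, part RNA: Radon-Nikodym lemma with effects.
-/

set_option autoImplicit false
set_option linter.unusedSectionVars false

open Filter Topology
open scoped InnerProductSpace ComplexOrder
open Pool.Agent.Helper278 Pool.Agent.W662.KKS

namespace Pool.Agent.W696.KKS

variable {H : Type} [NormedAddCommGroup H] [InnerProductSpace ℂ H] [CompleteSpace H]

section generic

variable {X : Type} [AddCommGroup X] [Module ℂ X]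

theorem dense_gen (S : X →ₗ[ℂ] H) :
    DenseRange ((S.comp (LinearMap.fst ℂ X ↥(LinearMap.range S)ᗮ)) +
      ((LinearMap.range S)ᗮ).subtype.comp (LinearMap.snd ℂ X ↥(LinearMap.range S)ᗮ)) := by
  let K : Submodule ℂ H := (LinearMap.range S).topologicalClosure
  let _i : CompleteSpace K := (Submodule.isClosed_topologicalClosure _).completeSpace_coe
  have hK : Kᗮ = (LinearMap.range S)ᗮ := Submodule.orthogonal_closure _
  have h1 : (LinearMap.range ((S.comp (LinearMap.fst ℂ X ↥(LinearMap.range S)ᗮ)) +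
      ((LinearMap.range S)ᗮ).subtype.comp
        (LinearMap.snd ℂ X ↥(LinearMap.range S)ᗮ))).topologicalClosure = ⊤ := by
    rw [eq_top_iff, ← Submodule.sup_orthogonal_of_hasOrthogonalProjection (K := K)]
    refine sup_le ?_ ?_
    · refine Submodule.topologicalClosure_mono ?_
      rintro _ ⟨x, rfl⟩
      refine ⟨(x, 0), ?_⟩
      show S x + 0 = _
      rw [add_zero]
    · intro k hk
      rw [hK] at hk
      refine Submodule.le_topologicalClosure _ ⟨(0, ⟨k, hk⟩), ?_⟩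
      show S 0 + k = k
      rw [map_zero, zero_add]
  exact Submodule.dense_iff_topologicalClosure_eq_top.2 h1

theorem norm_gen (S : X →ₗ[ℂ] H) (x : X) (k : H) (hk : k ∈ (LinearMap.range S)ᗮ) :
    ‖S x + k‖ ^ 2 = ‖S x‖ ^ 2 + ‖k‖ ^ 2 := by
  have h : ⟪S x, k⟫_ℂ = 0 := hk _ ⟨x, rfl⟩
  have := norm_add_sq_eq_norm_sq_add_norm_sq_of_inner_eq_zero (𝕜 := ℂ) _ _ h
  rw [sq, sq, sq]
  exact this

theorem ext_gen (S : X →ₗ[ℂ] H) (W W' : H →L[ℂ] H) (h1 : ∀ x, W (S x) = W' (S x))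
    (h2 : ∀ k ∈ (LinearMap.range S)ᗮ, W k = W' k) : W = W' := by
  refine ContinuousLinearMap.coeFn_injective (DenseRange.equalizer (dense_gen S)
    W.continuous W'.continuous ?_)
  funext p
  show W (S p.1 + p.2) = W' (S p.1 + p.2)
  rw [map_add, map_add, h1, h2 _ p.2.2]

/-- a bounded extension of `S x ↦ R x`, zero on the orthogonal complement -/
theorem exists_gen (S R : X →ₗ[ℂ] H) (C : ℝ) (hC : 0 ≤ C) (hn : ∀ x, ‖R x‖ ≤ C * ‖S x‖) :
    ∃ T : H →L[ℂ] H, ‖T‖ ≤ C ∧ (∀ x, T (S x) = R x) ∧ ∀ k ∈ (LinearMap.range S)ᗮ, T k = 0 := by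
  let e : (X × ↥(LinearMap.range S)ᗮ) →ₗ[ℂ] H :=
    (S.comp (LinearMap.fst ℂ X ↥(LinearMap.range S)ᗮ)) +
      ((LinearMap.range S)ᗮ).subtype.comp (LinearMap.snd ℂ X ↥(LinearMap.range S)ᗮ)
  let f : (X × ↥(LinearMap.range S)ᗮ) →ₗ[ℂ] H :=
    R.comp (LinearMap.fst ℂ X ↥(LinearMap.range S)ᗮ)
  have hd : DenseRange e := dense_gen S
  have hb : ∀ p, ‖f p‖ ≤ C * ‖e p‖ := by
    intro p
    have h1 : f p = R p.1 := rfl
    have h2 : e p = S p.1 + p.2 := rfl
    have h3 := norm_gen S p.1 p.2 p.2.2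
    have h4 : ‖S p.1‖ ≤ ‖S p.1 + (p.2 : H)‖ := by
      refine (sq_le_sq₀ (norm_nonneg _) (norm_nonneg _)).1 ?_
      rw [h3]
      nlinarith [sq_nonneg ‖(p.2 : H)‖]
    rw [h1, h2]
    exact (hn p.1).trans (mul_le_mul_of_nonneg_left h4 hC)
  refine ⟨f.extendOfNorm e, ?_, ?_, ?_⟩
  · refine ContinuousLinearMap.opNorm_le_bound _ hC fun x => ?_
    exact LinearMap.norm_extendOfNorm_apply_le hd C hb x
  · intro x
    have h := LinearMap.extendOfNorm_eq hd ⟨C, hb⟩ (x, 0)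
    have h1 : e (x, 0) = S x := by
      show S x + 0 = S x
      rw [add_zero]
    rw [h1] at h
    exact h
  · intro k hk
    have h := LinearMap.extendOfNorm_eq hd ⟨C, hb⟩ (0, ⟨k, hk⟩)
    have h1 : e (0, ⟨k, hk⟩) = k := by
      show S 0 + k = k
      rw [map_zero, zero_add]
    have h2 : f (0, ⟨k, hk⟩) = 0 := by
      show R 0 = 0
      rw [map_zero]
    rw [h1, h2] at h
    exact h

end generic

/-- effects of the commutant -/
def Eff (N : VonNeumannAlgebra H) : Set (H →L[ℂ] H) := {h | h ∈ N.commutant ∧ 0 ≤ h ∧ h ≤ 1}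

theorem norm_le_one_of_eff {h : H →L[ℂ] H} (h0 : 0 ≤ h) (h1 : h ≤ 1) : ‖h‖ ≤ 1 :=
  (CStarAlgebra.norm_le_one_iff_of_nonneg h h0).2 h1

theorem isClosed_pos : IsClosed {T : H →WOT[ℂ] H | 0 ≤ T.toCLM} := by
  have : {T : H →WOT[ℂ] H | 0 ≤ T.toCLM} =
      ⋂ x : H, {T : H →WOT[ℂ] H | 0 ≤ ⟪x, T x⟫_ℂ} := by
    ext y
    simp only [Set.mem_ofPred_eq, Set.mem_iInter]
    rw [ContinuousLinearMap.nonneg_iff_isPositive]
    constructor
    · intro h x
      exact h.inner_nonneg_right x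
    · intro h
      rw [ContinuousLinearMap.isPositive_iff_complex]
      intro x
      have hx := h x
      have h5 : ⟪y.toCLM x, x⟫_ℂ = (starRingEnd ℂ) ⟪x, y x⟫_ℂ := by
        rw [inner_conj_symm]; rfl
      rw [Complex.nonneg_iff] at hx
      have h7 : (⟪y.toCLM x, x⟫_ℂ).re = (⟪x, y x⟫_ℂ).re := by
        rw [h5, Complex.conj_re]
      have h8 : (⟪y.toCLM x, x⟫_ℂ).im = 0 := by
        rw [h5, Complex.conj_im, ← hx.2, neg_zero]
      constructor
      · apply Complex.ext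
        · simp
        · rw [h8]; simp
      · have : 0 ≤ (⟪y.toCLM x, x⟫_ℂ).re := by rw [h7]; exact hx.1
        exact this
  rw [this]
  refine isClosed_iInter fun x => ?_
  have hcont : Continuous (fun T : H →WOT[ℂ] H => ⟪x, T x⟫_ℂ) :=
    (ContinuousLinearMapWOT.continuous_iff.1 continuous_id) x x
  exact isClosed_le continuous_const hcont

theorem exists_max (N : VonNeumannAlgebra H) (ζ ζ₀ : H) (c : ℝ) :
    ∃ h ∈ Eff N, ∀ k ∈ Eff N, (⟪ζ, k ζ⟫_ℂ).re - c * (⟪ζ₀, k ζ₀⟫_ℂ).re ≤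
      (⟪ζ, h ζ⟫_ℂ).re - c * (⟪ζ₀, h ζ₀⟫_ℂ).re := by
  let K : Set (H →WOT[ℂ] H) := {T | T.toCLM ∈ Eff N}
  have hK : K = {T : H →WOT[ℂ] H | ‖T.toCLM‖ ≤ 1} ∩
      ((⋂ t ∈ (N : Set (H →L[ℂ] H)), {T : H →WOT[ℂ] H |
        ContinuousLinearMapWOT.ofCLM t * T = T * ContinuousLinearMapWOT.ofCLM t}) ∩
      ({T : H →WOT[ℂ] H | 0 ≤ T.toCLM} ∩ {T : H →WOT[ℂ] H | 0 ≤ (1 - T).toCLM})) := by
    ext T
    constructor
    · rintro ⟨h1, h2, h3⟩
      refine ⟨norm_le_one_of_eff h2 h3, ?_, h2, ?_⟩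
      · simp only [Set.mem_iInter, Set.mem_ofPred_eq]
        intro t ht
        have := (VonNeumannAlgebra.mem_commutant_iff.1 h1) t ht
        apply ContinuousLinearMapWOT.toCLM_injective
        simpa using this
      · show 0 ≤ (1 - T).toCLM
        have : (1 - T).toCLM = 1 - T.toCLM := rfl
        rw [this]
        exact sub_nonneg.2 h3
    · rintro ⟨h1, h2, h3, h4⟩
      refine ⟨?_, h3, ?_⟩
      · rw [VonNeumannAlgebra.mem_commutant_iff]
        intro t ht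
        simp only [Set.mem_iInter, Set.mem_ofPred_eq] at h2
        have := congrArg ContinuousLinearMapWOT.toCLM (h2 t ht)
        simpa using this
      · have : (1 - T).toCLM = 1 - T.toCLM := rfl
        have h5 : 0 ≤ (1 - T).toCLM := h4
        rw [this] at h5
        exact sub_nonneg.1 h5
  have hKc : IsCompact K := by
    rw [hK]
    refine isCompact_wot_ball.inter_right (IsClosed.inter ?_ (isClosed_pos.inter ?_))
    · refine isClosed_biInter fun t _ => isClosed_eq ?_ ?_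
      · exact continuous_const_mul _
      · exact continuous_mul_const _
    · exact isClosed_pos.preimage (continuous_const.sub continuous_id)
  have hKne : K.Nonempty := ⟨0, by
    refine ⟨?_, ?_, ?_⟩
    · exact N.commutant.toStarSubalgebra.zero_mem
    · exact le_refl _
    · exact zero_le_one⟩
  have hc1 : ∀ v : H, Continuous (fun T : H →WOT[ℂ] H => (⟪v, T v⟫_ℂ).re) := fun v =>
    Complex.continuous_re.comp ((ContinuousLinearMapWOT.continuous_iff.1 continuous_id) v v)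
  have hF : Continuous (fun T : H →WOT[ℂ] H =>
      (⟪ζ, T ζ⟫_ℂ).re - c * (⟪ζ₀, T ζ₀⟫_ℂ).re) :=
    (hc1 ζ).sub (continuous_const.mul (hc1 ζ₀))
  obtain ⟨h, hh, hmax⟩ := hKc.exists_isMaxOn hKne hF.continuousOn
  refine ⟨h.toCLM, hh, fun k hk => ?_⟩
  exact hmax (show ContinuousLinearMapWOT.ofCLM k ∈ K from hk)


section

variable (N : VonNeumannAlgebra H)

theorem mem_comm {t : H →L[ℂ] H} : t ∈ N.commutant ↔ ∀ g ∈ N, g * t = t * g :=
  VonNeumannAlgebra.mem_commutant_iff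

theorem sqrt_mem {h : H →L[ℂ] H} (h1 : h ∈ N.commutant) : CFC.sqrt h ∈ N.commutant := by
  rw [mem_comm] at h1 ⊢
  intro g hg
  have h2 : Commute h g := (h1 g hg).symm
  have h3 : Commute (CFC.sqrt h) g := h2.cfcₙ_nnreal NNReal.sqrt
  exact h3.symm

/-- `‖s v‖² = re ⟪v, h v⟫` when `s* s = h` -/
theorem norm_sq_of {s h : H →L[ℂ] H} (hs : star s * s = h) (v : H) :
    ‖s v‖ ^ 2 = (⟪v, h v⟫_ℂ).re := by
  rw [← hs, ContinuousLinearMap.star_eq_adjoint]
  show _ = (⟪v, ContinuousLinearMap.adjoint s (s v)⟫_ℂ).re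
  rw [ContinuousLinearMap.adjoint_inner_right, inner_self_eq_norm_sq_to_K]
  norm_cast

theorem rna : S_RNA := by
  intro H _ _ _ N ζ ζ₀ g d hg hd hyp
  obtain ⟨h, ⟨hN, h0, h1⟩, hmax⟩ := exists_max N ζ ζ₀ (4 * g ^ 2)
  -- square root of h
  set s := CFC.sqrt h with hs
  have hs0 : 0 ≤ s := CFC.sqrt_nonneg h
  have hss : s * s = h := CFC.sqrt_mul_sqrt_self h h0
  have hsa : star s = s := (IsSelfAdjoint.of_nonneg hs0).star_eq
  have hsN : s ∈ N.commutant := sqrt_mem N hN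
  have hs1 : ‖s‖ ≤ 1 := by
    have h2 : ‖star s * s‖ = ‖s‖ * ‖s‖ := CStarRing.norm_star_mul_self
    rw [hsa, hss] at h2
    have h3 : ‖h‖ ≤ 1 := norm_le_one_of_eff h0 h1
    nlinarith [norm_nonneg s]
  have hsq : ∀ v : H, ‖s v‖ ^ 2 = (⟪v, h v⟫_ℂ).re := fun v => norm_sq_of (by rw [hsa, hss]) v
  have hF0 : 4 * g ^ 2 * ‖s ζ₀‖ ^ 2 ≤ ‖s ζ‖ ^ 2 := by
    have h2 := hmax 0 ⟨N.commutant.toStarSubalgebra.zero_mem, le_refl _, zero_le_one⟩
    rw [← hsq, ← hsq] at h2
    simp at h2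
    exact h2
  have hF1 : 2 * g * ‖s ζ₀‖ ≤ ‖s ζ‖ := by
    refine (sq_le_sq₀ (by positivity) (norm_nonneg _)).1 ?_
    calc (2 * g * ‖s ζ₀‖) ^ 2 = 4 * g ^ 2 * ‖s ζ₀‖ ^ 2 := by ring
      _ ≤ _ := hF0
  have hF2 := hyp s hsN hs1
  have hA : g * ‖s ζ₀‖ ≤ d := by linarith
  have hB : ‖s ζ‖ ≤ 2 * d := by linarith
  -- square root of 1 - h
  have h1' : 0 ≤ 1 - h := sub_nonneg.2 h1
  set z := CFC.sqrt (1 - h) with hz
  have hz0 : 0 ≤ z := CFC.sqrt_nonneg _
  have hzz : z * z = 1 - h := CFC.sqrt_mul_sqrt_self _ h1'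
  have hza : star z = z := (IsSelfAdjoint.of_nonneg hz0).star_eq
  have hzN : z ∈ N.commutant :=
    sqrt_mem N (N.commutant.toStarSubalgebra.sub_mem N.commutant.toStarSubalgebra.one_mem hN)
  have hz1 : z ≤ 1 := by
    have h2 : ‖star z * z‖ = ‖z‖ * ‖z‖ := CStarRing.norm_star_mul_self
    rw [hza, hzz] at h2
    have h3 : ‖1 - h‖ ≤ 1 := norm_le_one_of_eff h1' (by simpa using h0)
    have h4 : ‖z‖ ≤ 1 := by nlinarith [norm_nonneg z]
    exact (CStarAlgebra.norm_le_one_iff_of_nonneg z hz0).1 h4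
  -- domination
  have hdom1 : ∀ r ∈ N.commutant, ‖r‖ ≤ 1 → ‖r (z ζ)‖ ≤ 2 * g * ‖r (z ζ₀)‖ := by
    intro r hr hr1
    have hk0 : 0 ≤ star r * r := star_mul_self_nonneg r
    have hk1 : star r * r ≤ 1 := by
      refine (CStarAlgebra.norm_le_one_iff_of_nonneg _ hk0).1 ?_
      rw [CStarRing.norm_star_mul_self]
      nlinarith [norm_nonneg r]
    have hkz : h + z * (star r * r) * z ∈ Eff N := by
      refine ⟨?_, ?_, ?_⟩
      · have hrr : star r * r ∈ N.commutant.toStarSubalgebra :=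
          mul_mem (star_mem hr) hr
        exact add_mem hN (mul_mem (mul_mem hzN hrr) hzN)
      · have h2 : 0 ≤ star z * (star r * r) * z := star_left_conjugate_nonneg hk0 z
        rw [hza] at h2
        exact add_nonneg h0 h2
      · have h2 : 0 ≤ star z * (1 - star r * r) * z :=
          star_left_conjugate_nonneg (sub_nonneg.2 hk1) z
        rw [hza] at h2
        have h3 : z * (1 - star r * r) * z = 1 - (h + z * (star r * r) * z) := by
          have : z * (1 - star r * r) * z = z * z - z * (star r * r) * z := by noncomm_ring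
          rw [this, hzz]
          abel
        rw [h3] at h2
        exact sub_nonneg.1 h2
    have h2 := hmax _ hkz
    have h3 : ∀ v : H, (⟪v, (h + z * (star r * r) * z) v⟫_ℂ).re =
        (⟪v, h v⟫_ℂ).re + ‖r (z v)‖ ^ 2 := by
      intro v
      have h4 : star (r * z) * (r * z) = z * (star r * r) * z := by
        rw [star_mul, hza]
        noncomm_ring
      have h5 := norm_sq_of h4 v
      have h6 : (h + z * (star r * r) * z) v = h v + (z * (star r * r) * z) v := rfl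
      rw [h6, inner_add_right, Complex.add_re, ← h5]
      rfl
    rw [h3, h3] at h2
    refine (sq_le_sq₀ (norm_nonneg _) (by positivity)).1 ?_
    have : (2 * g * ‖r (z ζ₀)‖) ^ 2 = 4 * g ^ 2 * ‖r (z ζ₀)‖ ^ 2 := by ring
    rw [this]
    nlinarith
  have hdom : ∀ r ∈ N.commutant, ‖r (z ζ)‖ ≤ 2 * g * ‖r (z ζ₀)‖ := by
    intro r hr
    rcases eq_or_lt_of_le (norm_nonneg r) with h2 | h2
    · have : r = 0 := norm_eq_zero.1 h2.symm
      rw [this]
      simp
    · have h3 : ((‖r‖⁻¹ : ℝ) : ℂ) • r ∈ N.commutant :=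
        N.commutant.toStarSubalgebra.smul_mem hr _
      have h4 : ‖((‖r‖⁻¹ : ℝ) : ℂ) • r‖ ≤ 1 := by
        rw [norm_smul, Complex.norm_real, Real.norm_eq_abs, abs_inv, abs_norm,
          inv_mul_cancel₀ h2.ne']
      have h5 := hdom1 _ h3 h4
      have h6 : ∀ v : H, ‖(((‖r‖⁻¹ : ℝ) : ℂ) • r) v‖ = ‖r‖⁻¹ * ‖r v‖ := by
        intro v
        show ‖((‖r‖⁻¹ : ℝ) : ℂ) • (r v)‖ = _
        rw [norm_smul, Complex.norm_real, Real.norm_eq_abs, abs_inv, abs_norm]
      rw [h6, h6] at h5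
      have h7 : ‖r‖⁻¹ * ‖r (z ζ)‖ ≤ ‖r‖⁻¹ * (2 * g * ‖r (z ζ₀)‖) := by
        calc _ ≤ _ := h5
          _ = _ := by ring
      exact le_of_mul_le_mul_left h7 (inv_pos.2 h2)
  -- the operator y
  let X := ↥(N.commutant.toStarSubalgebra)
  let S : X →ₗ[ℂ] H :=
    { toFun := fun r => (r : H →L[ℂ] H) (z ζ₀)
      map_add' := fun a b => rfl
      map_smul' := fun a b => rfl }
  let R : X →ₗ[ℂ] H :=
    { toFun := fun r => (r : H →L[ℂ] H) (z ζ)
      map_add' := fun a b => rfl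
      map_smul' := fun a b => rfl }
  obtain ⟨y, hy1, hy2, hy3⟩ := exists_gen S R (2 * g) (by positivity) (fun r => hdom r r.2)
  have hyN : y ∈ N := by
    rw [← VonNeumannAlgebra.commutant_commutant N, VonNeumannAlgebra.mem_commutant_iff]
    intro t ht
    refine ext_gen S _ _ (fun x => ?_) (fun k hk => ?_)
    · show t (y (S x)) = y (t (S x))
      have h2 : t (S x) = S (⟨t, ht⟩ * x) := rfl
      rw [h2, hy2, hy2]
      rfl
    · show t (y k) = y (t k)
      rw [hy3 k hk, map_zero]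
      refine (hy3 _ ?_).symm
      rw [Submodule.mem_orthogonal] at hk ⊢
      rintro _ ⟨x, rfl⟩
      have h2 : ⟪S x, t k⟫_ℂ = ⟪S (⟨star t, star_mem ht⟩ * x), k⟫_ℂ := by
        have h3 : S (⟨star t, star_mem ht⟩ * x) = (star t) (S x) := rfl
        rw [h3, ContinuousLinearMap.star_eq_adjoint, ContinuousLinearMap.adjoint_inner_left]
      rw [h2]
      exact hk _ ⟨_, rfl⟩
  refine ⟨y, hyN, hy1, ?_⟩
  have hyz : y (z ζ₀) = z ζ := by
    have h2 := hy2 ⟨1, N.commutant.toStarSubalgebra.one_mem⟩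
    exact h2
  have hcomm : ∀ t ∈ N.commutant, ∀ v, y (t v) = t (y v) := by
    intro t ht v
    have h2 := (VonNeumannAlgebra.mem_commutant_iff.1 ht) y hyN
    exact congrArg (fun T : H →L[ℂ] H => T v) h2
  set v := ζ - y ζ₀ with hv
  have hzv : z v = 0 := by
    rw [hv, map_sub, ← hcomm z hzN, hyz, sub_self]
  have hsv : ‖s v‖ ≤ 4 * d := by
    rw [hv, map_sub, ← hcomm s hsN]
    have h2 : ‖y (s ζ₀)‖ ≤ 2 * d := by
      calc ‖y (s ζ₀)‖ ≤ ‖y‖ * ‖s ζ₀‖ := y.le_opNorm _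
        _ ≤ 2 * g * ‖s ζ₀‖ := mul_le_mul_of_nonneg_right hy1 (norm_nonneg _)
        _ ≤ 2 * d := by linarith
    calc _ ≤ ‖s ζ‖ + ‖y (s ζ₀)‖ := norm_sub_le _ _
      _ ≤ 4 * d := by linarith
  have hhv : h v = v := by
    have h2 : (z * z) v = 0 := by
      show z (z v) = 0
      rw [hzv, map_zero]
    rw [hzz] at h2
    have h3 : (1 - h) v = v - h v := rfl
    rw [h3] at h2
    exact (sub_eq_zero.1 h2).symm
  have h2 : ‖v‖ ^ 2 = ‖s v‖ ^ 2 := by
    rw [hsq, hhv, inner_self_eq_norm_sq_to_K]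
    norm_cast
  have h3 : ‖v‖ = ‖s v‖ := (sq_eq_sq₀ (norm_nonneg _) (norm_nonneg _)).1 h2
  rw [h3]
  exact hsv

end

end Pool.Agent.W696.KKS
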