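import Pool.Agent.Helper278.Wot
import Pool.Agent.Helper278.Factor
import Pool.Agent.W662.KKS.Stmts3

/-!
Project KKS, part LG2: cutting down by projections.
-/

set_option autoImplicit false
set_option linter.unusedSectionVars false

open Filter Topology
open scoped InnerProductSpace ComplexOrder
open Pool.Agent.Helper278 Pool.Agent.W662.KKS

namespace Pool.Agent.W696.KKS.Lg2

variable {H : Type} [NormedAddCommGroup H] [InnerProductSpace ℂ H] [CompleteSpace H]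

theorem isClosed_pos : IsClosed {T : H →WOT[ℂ] H | 0 ≤ T.toCLM} := by
  have : {T : H →WOT[ℂ] H | 0 ≤ T.toCLM} =
      ⋂ x : H, {T : H →WOT[ℂ] H | 0 ≤ ⟪x, T x⟫_ℂ} := by
    ext y
    simp only [Set.mem_ofPred_eq, Set.mem_iInter]
    rw [ContinuousLinearMap.nonneg_iff_isPositive]
    constructor
    · intro h x
      exact h.inner_nonneg_right x
    · intro h
      rw [ContinuousLinearMap.isPositive_iff_complex]
      intro x
      have hx := h x
      have h5 : ⟪y.toCLM x, x⟫_ℂ = (starRingEnd ℂ) ⟪x, y x⟫_ℂ := by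
        rw [inner_conj_symm]; rfl
      rw [Complex.nonneg_iff] at hx
      have h7 : (⟪y.toCLM x, x⟫_ℂ).re = (⟪x, y x⟫_ℂ).re := by
        rw [h5, Complex.conj_re]
      have h8 : (⟪y.toCLM x, x⟫_ℂ).im = 0 := by
        rw [h5, Complex.conj_im, ← hx.2, neg_zero]
      constructor
      · apply Complex.ext
        · simp
        · rw [h8]; simp
      · have : 0 ≤ (⟪y.toCLM x, x⟫_ℂ).re := by rw [h7]; exact hx.1
        exact this
  rw [this]
  refine isClosed_iInter fun x => ?_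
  have hcont : Continuous (fun T : H →WOT[ℂ] H => ⟪x, T x⟫_ℂ) :=
    (ContinuousLinearMapWOT.continuous_iff.1 continuous_id) x x
  exact isClosed_le continuous_const hcont

theorem inner_star_mul (a : H →L[ℂ] H) (u v : H) :
    ⟪u, (star a * a : H →L[ℂ] H) v⟫_ℂ = ⟪a u, a v⟫_ℂ := by
  rw [ContinuousLinearMap.star_eq_adjoint]
  show ⟪u, ContinuousLinearMap.adjoint a (a v)⟫_ℂ = _
  rw [ContinuousLinearMap.adjoint_inner_right]

theorem re_inner_star_mul (a : H →L[ℂ] H) (v : H) :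
    (⟪v, (star a * a : H →L[ℂ] H) v⟫_ℂ).re = ‖a v‖ ^ 2 := by
  rw [inner_star_mul, inner_self_eq_norm_sq_to_K]
  norm_cast

/-- weak limit of the partial sums of `∑ a_i* a_i` -/
theorem exists_lim (M : VonNeumannAlgebra H) (a : ℕ → (H →L[ℂ] H)) (ha : ∀ i, a i ∈ M)
    (h1 : ∀ n, ∀ v : H, ∑ i ∈ Finset.range n, ‖a i v‖ ^ 2 ≤ ‖v‖ ^ 2) :
    ∃ R ∈ M, 0 ≤ R ∧ (∀ n v, ∑ i ∈ Finset.range n, ‖a i v‖ ^ 2 ≤ (⟪v, R v⟫_ℂ).re) ∧
      ∀ (v : H) (C : ℝ), (∀ n, ∑ i ∈ Finset.range n, ‖a i v‖ ^ 2 ≤ C) → (⟪v, R v⟫_ℂ).re ≤ C := by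
  classical
  let Rn : ℕ → (H →L[ℂ] H) := fun n => ∑ i ∈ Finset.range n, star (a i) * a i
  have hRpos : ∀ n, 0 ≤ Rn n := fun n => Finset.sum_nonneg fun i _ => star_mul_self_nonneg (a i)
  have hRin : ∀ n (v : H), (⟪v, Rn n v⟫_ℂ).re = ∑ i ∈ Finset.range n, ‖a i v‖ ^ 2 := by
    intro n v
    have : Rn n v = ∑ i ∈ Finset.range n, (star (a i) * a i : H →L[ℂ] H) v := by
      show (∑ i ∈ Finset.range n, star (a i) * a i : H →L[ℂ] H) v = _
      rw [sum_apply]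
    rw [this, inner_sum, Complex.re_sum]
    exact Finset.sum_congr rfl fun i _ => re_inner_star_mul (a i) v
  have hRle : ∀ n, Rn n ≤ 1 := by
    intro n
    rw [← sub_nonneg, ContinuousLinearMap.nonneg_iff_isPositive,
      ContinuousLinearMap.isPositive_iff_complex]
    intro v
    have hsa : star (Rn n) = Rn n := (IsSelfAdjoint.of_nonneg (hRpos n)).star_eq
    have hpos : (ContinuousLinearMap.IsPositive (Rn n)) :=
      (ContinuousLinearMap.nonneg_iff_isPositive _).1 (hRpos n)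
    have hr := (ContinuousLinearMap.isPositive_iff_complex _).1 hpos v
    have e1 : ⟪(1 - Rn n : H →L[ℂ] H) v, v⟫_ℂ = ⟪v, v⟫_ℂ - ⟪Rn n v, v⟫_ℂ := by
      show ⟪v - Rn n v, v⟫_ℂ = _
      rw [inner_sub_left]
    have e2 : ⟪v, v⟫_ℂ = ((‖v‖ ^ 2 : ℝ) : ℂ) := by
      rw [inner_self_eq_norm_sq_to_K]; norm_cast
    have e3 : (⟪Rn n v, v⟫_ℂ).re = (⟪v, Rn n v⟫_ℂ).re := by
      rw [← inner_conj_symm, Complex.conj_re]
    have e4 : (⟪(1 - Rn n : H →L[ℂ] H) v, v⟫_ℂ).re = ‖v‖ ^ 2 - (⟪Rn n v, v⟫_ℂ).re := by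
      rw [e1, e2, Complex.sub_re, Complex.ofReal_re]
    constructor
    · rw [e1, e2]
      have hr1 : ((⟪Rn n v, v⟫_ℂ).re : ℂ) = ⟪Rn n v, v⟫_ℂ := hr.1
      rw [← hr1, ← Complex.ofReal_sub]
      show (((((‖v‖ ^ 2 - (⟪Rn n v, v⟫_ℂ).re : ℝ) : ℂ)).re : ℝ) : ℂ) = _
      rw [Complex.ofReal_re]
    · show 0 ≤ (⟪(1 - Rn n : H →L[ℂ] H) v, v⟫_ℂ).re
      rw [e4, e3, hRin]
      linarith [h1 n v]
  have hnorm : ∀ n, ‖Rn n‖ ≤ 1 := fun n =>
    (CStarAlgebra.norm_le_one_iff_of_nonneg (Rn n) (hRpos n)).2 (hRle n)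
  -- ultrafilter limit
  let U : Ultrafilter ℕ := Filter.hyperfilter ℕ
  let f : ℕ → (H →WOT[ℂ] H) := fun n => ContinuousLinearMapWOT.ofCLM (Rn n)
  obtain ⟨T, hT1, hT2⟩ := (isCompact_iff_ultrafilter_le_nhds.1 (isCompact_wot_ball (H := H)))
    (U.map f) (by
      rw [Ultrafilter.coe_map, le_principal_iff, mem_map]
      exact Filter.Eventually.of_forall fun n => hnorm n)
  have hTt : Tendsto f U (𝓝 T) := hT2
  have hlim : ∀ u v : H, Tendsto (fun n => ⟪u, Rn n v⟫_ℂ) U (𝓝 ⟪u, T v⟫_ℂ) := by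
    intro u v
    have hcont : Continuous (fun T : H →WOT[ℂ] H => ⟪u, T v⟫_ℂ) :=
      (ContinuousLinearMapWOT.continuous_iff.1 continuous_id) v u
    exact (hcont.tendsto T).comp hTt
  have hlimr : ∀ v : H, Tendsto (fun n => ∑ i ∈ Finset.range n, ‖a i v‖ ^ 2) U
      (𝓝 (⟪v, T v⟫_ℂ).re) := by
    intro v
    have := (Complex.continuous_re.tendsto _).comp (hlim v v)
    refine this.congr fun n => ?_
    exact hRin n v
  refine ⟨T.toCLM, ?_, ?_, ?_, ?_⟩
  · -- membership via the double commutant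
    rw [← VonNeumannAlgebra.commutant_commutant M, VonNeumannAlgebra.mem_commutant_iff]
    intro g hg
    have hgc : ∀ n, g * Rn n = Rn n * g := by
      intro n
      have hmem : Rn n ∈ M := sum_mem fun i _ => mul_mem (star_mem (ha i)) (ha i)
      exact ((VonNeumannAlgebra.mem_commutant_iff.1 hg) _ hmem).symm
    ext v
    refine ext_inner_left ℂ fun u => ?_
    show ⟪u, g (T v)⟫_ℂ = ⟪u, T (g v)⟫_ℂ
    rw [← ContinuousLinearMap.adjoint_inner_left]
    refine tendsto_nhds_unique (hlim (ContinuousLinearMap.adjoint g u) v) ?_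
    refine (hlim u (g v)).congr fun n => ?_
    rw [ContinuousLinearMap.adjoint_inner_left]
    have := congrArg (fun A : H →L[ℂ] H => A v) (hgc n)
    show ⟪u, (Rn n * g : H →L[ℂ] H) v⟫_ℂ = ⟪u, (g * Rn n : H →L[ℂ] H) v⟫_ℂ
    rw [hgc n]
  · exact isClosed_pos.mem_of_tendsto hTt (Filter.Eventually.of_forall hRpos)
  · intro n v
    refine ge_of_tendsto (hlimr v) ?_
    have h3 : ∀ᶠ m in (atTop : Filter ℕ), n ≤ m := eventually_ge_atTop n
    have h4 : (U : Filter ℕ) ≤ atTop := Nat.hyperfilter_le_atTop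
    refine (h3.filter_mono h4).mono fun m hm => ?_
    exact Finset.sum_le_sum_of_subset_of_nonneg (Finset.range_mono hm)
      fun i _ _ => sq_nonneg _
  · intro v C hC
    exact le_of_tendsto (hlimr v) (Filter.Eventually.of_forall hC)

theorem exists_half (R : H →L[ℂ] H) (h0 : 0 ≤ R) (h1 : ∀ v : H, (⟪v, R v⟫_ℂ).re ≤ ‖v‖ ^ 2) :
    ∃ r : H →L[ℂ] H, star r = r ∧ r * r = r ∧
      (∀ t : H →L[ℂ] H, t * R = R * t → star t * R = R * star t → t * r = r * t) ∧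
      (∀ v : H, (⟪v, R v⟫_ℂ).re + 1 / 2 * ‖r v‖ ^ 2 ≤ ‖v‖ ^ 2) ∧
      ∀ v : H, ‖v - r v‖ ^ 2 ≤ 2 * (⟪v, R v⟫_ℂ).re := by
  set D : H →L[ℂ] H := R - ((1 / 2 : ℝ) : ℂ) • (1 : H →L[ℂ] H) with hD
  have hRsa : star R = R := (IsSelfAdjoint.of_nonneg h0).star_eq
  have hDsa : IsSelfAdjoint D := by
    rw [IsSelfAdjoint, hD, star_sub, hRsa, star_smul, star_one, RCLike.star_def,
      Complex.conj_ofReal]
  set T : H →L[ℂ] H := D⁺ with hT
  set N : H →L[ℂ] H := D⁻ with hN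
  have hT0 : 0 ≤ T := CFC.posPart_nonneg D
  have hN0 : 0 ≤ N := CFC.negPart_nonneg D
  have hTN : T * N = 0 := CFC.posPart_mul_negPart D
  have hDTN : T - N = D := CFC.posPart_sub_negPart D hDsa
  have hTsa : star T = T := (IsSelfAdjoint.of_nonneg hT0).star_eq
  have hNsa : star N = N := (IsSelfAdjoint.of_nonneg hN0).star_eq
  let K : Submodule ℂ H := LinearMap.ker (T : H →ₗ[ℂ] H)
  have hKc : IsClosed (K : Set H) := ContinuousLinearMap.isClosed_ker T
  have : CompleteSpace K := hKc.completeSpace_coe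
  have hmemK : ∀ v, v ∈ K ↔ T v = 0 := fun v => LinearMap.mem_ker
  have hNK : ∀ v, N v ∈ K := by
    intro v
    rw [hmemK]
    exact congrArg (fun A : H →L[ℂ] H => A v) hTN
  have hsym : ∀ A : H →L[ℂ] H, star A = A → ∀ u v : H, ⟪u, A v⟫_ℂ = ⟪A u, v⟫_ℂ := by
    intro A hA u v
    rw [← ContinuousLinearMap.adjoint_inner_left, ← ContinuousLinearMap.star_eq_adjoint, hA]
  have hNperp : ∀ u ∈ Kᗮ, N u = 0 := by
    intro u hu
    refine ext_inner_right ℂ fun x => ?_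
    rw [inner_zero_left, ← hsym N hNsa]
    rw [← inner_conj_symm, (Submodule.mem_orthogonal K u).1 hu _ (hNK x), map_zero]
  have hposre : ∀ A : H →L[ℂ] H, 0 ≤ A → ∀ v : H, 0 ≤ (⟪v, A v⟫_ℂ).re := by
    intro A hA v
    have h2 := ((ContinuousLinearMap.nonneg_iff_isPositive A).1 hA).inner_nonneg_right v
    exact (Complex.nonneg_iff.1 h2).1
  have hRD : ∀ v, R v = T v - N v + ((1 / 2 : ℝ) : ℂ) • v := by
    intro v
    have : R = T - N + ((1 / 2 : ℝ) : ℂ) • (1 : H →L[ℂ] H) := by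
      rw [hDTN, hD]; abel
    conv_lhs => rw [this]
    rfl
  refine ⟨K.starProjection, ?_, ?_, ?_, ?_⟩
  · exact (isSelfAdjoint_starProjection K).star_eq
  · exact (Submodule.isIdempotentElem_starProjection K).eq
  · intro t ht hts
    have hcomm : ∀ s : H →L[ℂ] H, s * R = R * s → s * T = T * s := by
      intro s hs
      have h2 : Commute D s := by
        show D * s = s * D
        rw [hD, sub_mul, mul_sub, hs, smul_mul_assoc, one_mul, mul_smul_comm, mul_one]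
      have h3 : Commute T s := by
        rw [hT, CFC.posPart_def]
        exact h2.cfcₙ_real _
      exact h3.symm
    refine (commute_starProjection K t ?_ ?_).symm
    · intro v hv
      rw [hmemK] at hv ⊢
      have : T (t v) = t (T v) := by
        have := congrArg (fun A : H →L[ℂ] H => A v) (hcomm t ht)
        exact this.symm
      rw [this, hv, map_zero]
    · intro v hv
      rw [hmemK] at hv ⊢
      have : T ((star t) v) = (star t) (T v) := by
        have := congrArg (fun A : H →L[ℂ] H => A v) (hcomm (star t) hts)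
        exact this.symm
      rw [this, hv, map_zero]
  · have hdec : ∀ v : H, (⟪v, R v⟫_ℂ).re =
        (⟪v - K.starProjection v, R (v - K.starProjection v)⟫_ℂ).re +
        (⟪K.starProjection v, R (K.starProjection v)⟫_ℂ).re ∧
        (⟪v - K.starProjection v, R (v - K.starProjection v)⟫_ℂ).re =
        (⟪v - K.starProjection v, T (v - K.starProjection v)⟫_ℂ).re +
        1 / 2 * ‖v - K.starProjection v‖ ^ 2 ∧
        (⟪K.starProjection v, R (K.starProjection v)⟫_ℂ).re =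
        - (⟪K.starProjection v, N (K.starProjection v)⟫_ℂ).re +
        1 / 2 * ‖K.starProjection v‖ ^ 2 ∧
        ‖v‖ ^ 2 = ‖v - K.starProjection v‖ ^ 2 + ‖K.starProjection v‖ ^ 2 := by
      intro v
      set w := K.starProjection v with hw
      set u := v - w with hu
      have hwK : w ∈ K := Submodule.starProjection_apply_mem K v
      have huK : u ∈ Kᗮ := K.sub_starProjection_mem_orthogonal v
      have hTw : T w = 0 := (hmemK w).1 hwK
      have hNu : N u = 0 := hNperp u huK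
      have hv : v = u + w := by rw [hu]; abel
      have hRw : R w = - N w + ((1 / 2 : ℝ) : ℂ) • w := by rw [hRD, hTw, zero_sub]
      have hRu : R u = T u + ((1 / 2 : ℝ) : ℂ) • u := by rw [hRD, hNu, sub_zero]
      have huw : ⟪u, w⟫_ℂ = 0 := by
        rw [← inner_conj_symm, (Submodule.mem_orthogonal K u).1 huK w hwK, map_zero]
      have hwu : ⟪w, u⟫_ℂ = 0 := (Submodule.mem_orthogonal K u).1 huK w hwK
      have e1 : ⟪u, R w⟫_ℂ = 0 := by
        rw [hRw, inner_add_right, inner_neg_right, hsym N hNsa, hNu, inner_zero_left, neg_zero,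
          inner_smul_right, huw, mul_zero, add_zero]
      have e2 : ⟪w, R u⟫_ℂ = 0 := by
        rw [hRu, inner_add_right, hsym T hTsa, hTw, inner_zero_left,
          inner_smul_right, hwu, mul_zero, add_zero]
      have nsq : ∀ x : H, (((1 / 2 : ℝ) : ℂ) * ⟪x, x⟫_ℂ).re = 1 / 2 * ‖x‖ ^ 2 := by
        intro x
        rw [Complex.re_ofReal_mul]
        congr 1
        rw [inner_self_eq_norm_sq_to_K]
        norm_cast
      refine ⟨?_, ?_, ?_, ?_⟩
      · have : ⟪v, R v⟫_ℂ = ⟪u, R u⟫_ℂ + ⟪w, R w⟫_ℂ := by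
          rw [hv, map_add, inner_add_left, inner_add_right, inner_add_right, e1, e2]
          ring
        rw [this, Complex.add_re]
      · rw [hRu, inner_add_right, Complex.add_re, inner_smul_right, nsq]
      · rw [hRw, inner_add_right, Complex.add_re, inner_smul_right, nsq, inner_neg_right,
          Complex.neg_re]
      · have := norm_add_sq_eq_norm_sq_add_norm_sq_of_inner_eq_zero u w huw
        rw [hv, sq, sq, sq]
        exact this
    constructor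
    · intro v
      obtain ⟨e1, e2, e3, e4⟩ := hdec v
      have h2 := h1 (v - K.starProjection v)
      have h3 := hposre N hN0 (K.starProjection v)
      rw [e1, e4]
      linarith
    · intro v
      obtain ⟨e1, e2, e3, e4⟩ := hdec v
      have h2 := hposre R h0 (K.starProjection v)
      have h3 := hposre T hT0 (v - K.starProjection v)
      rw [e1]
      linarith

/-- admissible next element -/
structure Adm (M : VonNeumannAlgebra H) (ξ : H) (S : H →L[ℂ] H) (c : ℝ) (p q : H → ℝ)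
    (a : H →L[ℂ] H) : Prop where
  mem : a ∈ M
  bad : c * ‖a ξ‖ ^ 2 ≤ ‖S (a ξ)‖ ^ 2
  hp : ∀ v, p v + ‖a v‖ ^ 2 ≤ ‖v‖ ^ 2
  hq : ∀ v, q v + ‖(star a) v‖ ^ 2 ≤ ‖v‖ ^ 2

theorem exists_pick (M : VonNeumannAlgebra H) (ξ : H) (S : H →L[ℂ] H) (c : ℝ) (p q : H → ℝ)
    (hp0 : ∀ v, 0 ≤ p v) (hp1 : ∀ v, p v ≤ ‖v‖ ^ 2) (hq1 : ∀ v, q v ≤ ‖v‖ ^ 2) :
    ∃ a, Adm M ξ S c p q a ∧ ∀ b, Adm M ξ S c p q b → ‖b ξ‖ ^ 2 ≤ 2 * ‖a ξ‖ ^ 2 := by
  have h0 : Adm M ξ S c p q 0 := by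
    refine ⟨zero_mem M, ?_, ?_, ?_⟩
    · simp
    · intro v
      simpa using hp1 v
    · intro v
      simpa using hq1 v
  by_contra hcon
  push Not at hcon
  -- the values are bounded by `‖ξ‖²`, but can be doubled
  have hbd : ∀ b, Adm M ξ S c p q b → ‖b ξ‖ ^ 2 ≤ ‖ξ‖ ^ 2 := fun b hb => by
    have := hb.hp ξ
    linarith [hp0 ξ]
  obtain ⟨b, hb, hb0⟩ := hcon 0 h0
  have hb1 : 0 < ‖b ξ‖ ^ 2 := by simpa using hb0
  have hpow : ∀ n : ℕ, ∃ a, Adm M ξ S c p q a ∧ 2 ^ n * ‖b ξ‖ ^ 2 ≤ ‖a ξ‖ ^ 2 := by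
    intro n
    induction n with
    | zero => exact ⟨b, hb, by simp⟩
    | succ n ih =>
      obtain ⟨a, ha, ha2⟩ := ih
      obtain ⟨d, hd, hd2⟩ := hcon a ha
      refine ⟨d, hd, ?_⟩
      rw [pow_succ]
      nlinarith
  obtain ⟨n, hn⟩ := pow_unbounded_of_one_lt (‖ξ‖ ^ 2 / ‖b ξ‖ ^ 2) (one_lt_two (α := ℝ))
  obtain ⟨a, ha, ha2⟩ := hpow n
  have h3 := hbd a ha
  rw [div_lt_iff₀ hb1] at hn
  linarith

theorem exists_seq (M : VonNeumannAlgebra H) (ξ : H) (S : H →L[ℂ] H) (c : ℝ) :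
    ∃ a : ℕ → (H →L[ℂ] H), ∀ n,
      Adm M ξ S c (fun v => ∑ i ∈ Finset.range n, ‖a i v‖ ^ 2)
        (fun v => ∑ i ∈ Finset.range n, ‖(star (a i)) v‖ ^ 2) (a n) ∧
      ∀ b, Adm M ξ S c (fun v => ∑ i ∈ Finset.range n, ‖a i v‖ ^ 2)
        (fun v => ∑ i ∈ Finset.range n, ‖(star (a i)) v‖ ^ 2) b → ‖b ξ‖ ^ 2 ≤ 2 * ‖a n ξ‖ ^ 2 := by
  classical
  let St := {s : (H → ℝ) × (H → ℝ) // (∀ v, 0 ≤ s.1 v) ∧ (∀ v, s.1 v ≤ ‖v‖ ^ 2) ∧
    (∀ v, s.2 v ≤ ‖v‖ ^ 2)}
  have hex : ∀ s : St, ∃ a, Adm M ξ S c s.1.1 s.1.2 a ∧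
      ∀ b, Adm M ξ S c s.1.1 s.1.2 b → ‖b ξ‖ ^ 2 ≤ 2 * ‖a ξ‖ ^ 2 := fun s =>
    exists_pick M ξ S c s.1.1 s.1.2 s.2.1 s.2.2.1 s.2.2.2
  choose pick hpick using hex
  let next : St → St := fun s =>
    ⟨(fun v => s.1.1 v + ‖pick s v‖ ^ 2, fun v => s.1.2 v + ‖(star (pick s)) v‖ ^ 2),
      fun v => add_nonneg (s.2.1 v) (sq_nonneg _), (hpick s).1.hp, (hpick s).1.hq⟩
  let s0 : St := ⟨(fun _ => 0, fun _ => 0), fun _ => le_refl _, fun _ => sq_nonneg _,
    fun _ => sq_nonneg _⟩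
  let st : ℕ → St := fun n => Nat.rec s0 (fun _ s => next s) n
  have hst : ∀ n, st (n + 1) = next (st n) := fun n => rfl
  have hval : ∀ n, (st n).1 = (fun v => ∑ i ∈ Finset.range n, ‖pick (st i) v‖ ^ 2,
      fun v => ∑ i ∈ Finset.range n, ‖(star (pick (st i))) v‖ ^ 2) := by
    intro n
    induction n with
    | zero =>
      simp only [Finset.range_zero, Finset.sum_empty]
      rfl
    | succ n ih =>
      rw [hst]
      show ((fun v => (st n).1.1 v + ‖pick (st n) v‖ ^ 2,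
        fun v => (st n).1.2 v + ‖(star (pick (st n))) v‖ ^ 2) : (H → ℝ) × (H → ℝ)) = _
      rw [ih]
      simp only [Finset.sum_range_succ]
  refine ⟨fun n => pick (st n), fun n => ?_⟩
  have := hpick (st n)
  rw [hval n] at this
  exact this

theorem star_vec {M : VonNeumannAlgebra H} {ξ : H} {ρ : (H →L[ℂ] H) → (H →L[ℂ] H)}
    (hS : Std M ξ ρ) {a : H →L[ℂ] H} (ha : a ∈ M) : ‖(star a) ξ‖ = ‖a ξ‖ := by
  have h1 := hS.tr (star a) (star_mem ha) a ha
  have e1 : ⟪ξ, (star a) (a ξ)⟫_ℂ = ((‖a ξ‖ ^ 2 : ℝ) : ℂ) := by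
    rw [ContinuousLinearMap.star_eq_adjoint, ContinuousLinearMap.adjoint_inner_right,
      inner_self_eq_norm_sq_to_K]
    norm_cast
  have e2 : ⟪ξ, a ((star a) ξ)⟫_ℂ = ((‖(star a) ξ‖ ^ 2 : ℝ) : ℂ) := by
    rw [← ContinuousLinearMap.adjoint_inner_left, ← ContinuousLinearMap.star_eq_adjoint,
      inner_self_eq_norm_sq_to_K]
    norm_cast
  rw [e1, e2, Complex.ofReal_inj] at h1
  have := (sq_eq_sq₀ (norm_nonneg _) (norm_nonneg _)).1 h1
  exact this.symm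

theorem norm_le_of_dense {M : VonNeumannAlgebra H} {ξ : H} {ρ : (H →L[ℂ] H) → (H →L[ℂ] H)}
    (hS : Std M ξ ρ) (T : H →L[ℂ] H) (C : ℝ) (hC : 0 ≤ C)
    (h : ∀ a ∈ M, ‖T (a ξ)‖ ≤ C * ‖a ξ‖) : ‖T‖ ≤ C := by
  refine T.opNorm_le_bound hC fun v => ?_
  refine le_of_forall_pos_le_add fun ε hε => ?_
  have hpos : 0 < ‖T‖ + C + 1 := by positivity
  obtain ⟨x, hx, hx1⟩ := hS.cyc v (ε / (‖T‖ + C + 1)) (by positivity)
  have e1 : T v = T (v - x ξ) + T (x ξ) := by rw [map_sub]; abel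
  have e2 : ‖T (v - x ξ)‖ ≤ ‖T‖ * ‖v - x ξ‖ := T.le_opNorm _
  have e3 : ‖x ξ‖ ≤ ‖v‖ + ‖v - x ξ‖ := by
    have : x ξ = v - (v - x ξ) := by abel
    calc ‖x ξ‖ = ‖v - (v - x ξ)‖ := by rw [← this]
      _ ≤ ‖v‖ + ‖v - x ξ‖ := norm_sub_le _ _
  have e4 : ‖T v‖ ≤ ‖T (v - x ξ)‖ + ‖T (x ξ)‖ := by rw [e1]; exact norm_add_le _ _
  have e5 := h x hx
  have e6 : (‖T‖ + C + 1) * ‖v - x ξ‖ ≤ ε := by
    have := mul_le_mul_of_nonneg_left hx1 hpos.le
    rwa [mul_div_cancel₀ _ hpos.ne'] at this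
  have e7 : C * ‖x ξ‖ ≤ C * (‖v‖ + ‖v - x ξ‖) := mul_le_mul_of_nonneg_left e3 hC
  nlinarith [norm_nonneg (v - x ξ)]

theorem norm_proj_le {r : H →L[ℂ] H} (h1 : star r = r) (h2 : r * r = r) (v : H) :
    ‖r v‖ ≤ ‖v‖ := by
  have e : ‖r‖ ≤ 1 := by
    have h3 : ‖star r * r‖ = ‖r‖ * ‖r‖ := CStarRing.norm_star_mul_self
    rw [h1, h2] at h3
    by_contra hc
    push Not at hc
    nlinarith
  calc ‖r v‖ ≤ ‖r‖ * ‖v‖ := r.le_opNorm v
    _ ≤ 1 * ‖v‖ := mul_le_mul_of_nonneg_right e (norm_nonneg v)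
    _ = ‖v‖ := one_mul _

theorem lg2 (h : S_LG1) : S_LG2 := by
  intro H _ _ _ M ξ ρ hS S D hD hSD κ hκ
  rcases hD.eq_or_lt with hD0 | hDpos
  · -- `D = 0`
    have hz : ‖S‖ ≤ 0 := norm_le_of_dense hS S 0 le_rfl fun a ha => by
      have := hSD a ha
      rw [← hD0, zero_mul] at this
      rw [zero_mul]; exact this
    have hz' : S = 0 := norm_le_zero_iff.1 hz
    refine ⟨1, one_mem M, 1, one_mem M, star_one _, one_mul _, star_one _, one_mul _, ?_, ?_, ?_⟩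
    · simp; positivity
    · simp; positivity
    · rw [hz', zero_mul, norm_zero]; positivity
  have hκ0 : 0 < κ := by linarith
  set c : ℝ := 8 * κ ^ 2 * D ^ 2 with hc
  have hcpos : 0 < c := by positivity
  obtain ⟨a, ha⟩ := exists_seq M ξ S c
  have haM : ∀ i, a i ∈ M := fun i => (ha i).1.mem
  -- partial sums
  have hsum1 : ∀ n, ∀ v : H, ∑ i ∈ Finset.range n, ‖a i v‖ ^ 2 ≤ ‖v‖ ^ 2 := by
    intro n v
    have := (ha n).1.hp v
    have h2 : 0 ≤ ‖a n v‖ ^ 2 := sq_nonneg _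

    linarith
  have hsum2 : ∀ n, ∀ v : H, ∑ i ∈ Finset.range n, ‖(star (a i)) v‖ ^ 2 ≤ ‖v‖ ^ 2 := by
    intro n v
    have := (ha n).1.hq v
    have h2 : 0 ≤ ‖(star (a n)) v‖ ^ 2 := sq_nonneg _

    linarith
  have htot : ∀ n, ∑ i ∈ Finset.range n, ‖a i ξ‖ ^ 2 ≤ 1 / κ ^ 2 := by
    intro n
    have h3 := h H M ξ ρ hS S D hD hSD n (fun i => a i) (fun i => haM i)
      (fun v => by
        have := hsum1 n v
        rwa [Finset.sum_range] at this)
      (fun v => by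
        have := hsum2 n v
        rwa [Finset.sum_range] at this)
    rw [← Finset.sum_range (fun i => ‖S (a i ξ)‖ ^ 2)] at h3
    have h4 : c * ∑ i ∈ Finset.range n, ‖a i ξ‖ ^ 2 ≤ ∑ i ∈ Finset.range n, ‖S (a i ξ)‖ ^ 2 := by
      rw [Finset.mul_sum]
      exact Finset.sum_le_sum fun i _ => (ha i).1.bad
    have h5 : c * ∑ i ∈ Finset.range n, ‖a i ξ‖ ^ 2 ≤ c * (1 / κ ^ 2) := by
      have : c * (1 / κ ^ 2) = 8 * D ^ 2 := by rw [hc]; field_simp
      rw [this]; linarith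
    exact le_of_mul_le_mul_left h5 hcpos
  have htend : Tendsto (fun n => ‖a n ξ‖ ^ 2) atTop (𝓝 0) :=
    (summable_of_sum_range_le (fun n => sq_nonneg _) htot).tendsto_atTop_zero
  obtain ⟨R, hRM, hR0, hR1, hR2⟩ := exists_lim M a haM hsum1
  obtain ⟨L, hLM, hL0, hL1, hL2⟩ := exists_lim M (fun i => star (a i)) (fun i => star_mem (haM i))
    hsum2
  obtain ⟨r, hr1, hr2, hr3, hr4, hr5⟩ := exists_half R hR0 (fun v => hR2 v _ fun n => hsum1 n v)
  obtain ⟨r', hr1', hr2', hr3', hr4', hr5'⟩ :=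
    exists_half L hL0 (fun v => hL2 v _ fun n => hsum2 n v)
  have hmem : ∀ X ∈ M, ∀ s : H →L[ℂ] H,
      (∀ t : H →L[ℂ] H, t * X = X * t → star t * X = X * star t → t * s = s * t) → s ∈ M := by
    intro X hX s hs
    rw [← VonNeumannAlgebra.commutant_commutant M, VonNeumannAlgebra.mem_commutant_iff]
    intro g hg
    refine hs g ?_ ?_
    · exact ((VonNeumannAlgebra.mem_commutant_iff.1 hg) X hX).symm
    · exact ((VonNeumannAlgebra.mem_commutant_iff.1 (star_mem hg)) X hX).symm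
  have hrM : r ∈ M := hmem R hRM r hr3
  have hrM' : r' ∈ M := hmem L hLM r' hr3'
  refine ⟨r, hrM, r', hrM', hr1, hr2, hr1', hr2', ?_, ?_, ?_⟩
  · have h3 := hr5 ξ
    have h4 := hR2 ξ _ htot
    have h5 : ((1 - r : H →L[ℂ] H) ξ) = ξ - r ξ := rfl
    rw [h5]
    calc ‖ξ - r ξ‖ ^ 2 ≤ 2 * (⟪ξ, R ξ⟫_ℂ).re := h3
      _ ≤ 2 * (1 / κ ^ 2) := by linarith
      _ = 2 / κ ^ 2 := by ring
  · have h3 := hr5' ξ
    have h4 := hL2 ξ (1 / κ ^ 2) (fun n => by
      have : ∀ i, ‖(star (a i)) ξ‖ ^ 2 = ‖a i ξ‖ ^ 2 := fun i => by rw [star_vec hS (haM i)]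
      simp only [this]
      exact htot n)
    have h5 : ((1 - r' : H →L[ℂ] H) ξ) = ξ - r' ξ := rfl
    rw [h5]
    calc ‖ξ - r' ξ‖ ^ 2 ≤ 2 * (⟪ξ, L ξ⟫_ℂ).re := h3
      _ ≤ 2 * (1 / κ ^ 2) := by linarith
      _ = 2 / κ ^ 2 := by ring
  -- the claim
  have hclaim : ∀ b ∈ M, r' * b * r = b → ‖S (b ξ)‖ ^ 2 ≤ c * ‖b ξ‖ ^ 2 := by
    intro b hb hbr
    by_contra hcon
    push Not at hcon
    have hSb : 0 < ‖S (b ξ)‖ ^ 2 := lt_of_le_of_lt (by positivity) hcon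
    have hbξ : 0 < ‖b ξ‖ ^ 2 := by
      have : b ξ ≠ 0 := by
        intro h0
        rw [h0, map_zero, norm_zero] at hSb
        simp at hSb
      have := norm_pos_iff.2 this
      positivity
    -- scale
    have hbn : 0 ≤ ‖b‖ := norm_nonneg b
    set t : ℝ := 1 / (2 * (‖b‖ + 1)) with ht
    have htpos : 0 < t := by positivity
    have htb : (t * ‖b‖) ^ 2 ≤ 1 / 2 := by
      have : t * ‖b‖ ≤ 1 / 2 := by
        rw [ht, div_mul_eq_mul_div, one_mul, div_le_div_iff₀ (by positivity) (by norm_num)]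
        linarith
      have h0 : 0 ≤ t * ‖b‖ := by positivity
      nlinarith
    set d : H →L[ℂ] H := (t : ℂ) • b with hd
    have hdv : ∀ v, ‖d v‖ = t * ‖b v‖ := by
      intro v
      show ‖(t : ℂ) • b v‖ = _
      rw [norm_smul, Complex.norm_real, Real.norm_eq_abs, abs_of_pos htpos]
    have hdsv : ∀ v, ‖(star d) v‖ = t * ‖(star b) v‖ := by
      intro v
      have : star d = (t : ℂ) • star b := by
        rw [hd, star_smul, RCLike.star_def, Complex.conj_ofReal]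
      rw [this]
      show ‖(t : ℂ) • (star b) v‖ = _
      rw [norm_smul, Complex.norm_real, Real.norm_eq_abs, abs_of_pos htpos]
    have hbv : ∀ v, b v = b (r v) := by
      intro v
      have e : b * r = b := by
        calc b * r = r' * b * r * r := by rw [hbr]
          _ = r' * b * (r * r) := by rw [mul_assoc]
          _ = b := by rw [hr2, hbr]
      have := congrArg (fun A : H →L[ℂ] H => A v) e
      exact this.symm
    have hbsv : ∀ v, (star b) v = (star b) (r' v) := by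
      intro v
      have e0 : r' * b = b := by
        calc r' * b = r' * (r' * b * r) := by rw [hbr]
          _ = (r' * r') * b * r := by simp only [mul_assoc]
          _ = b := by rw [hr2', hbr]
      have e : star b * r' = star b := by
        have := congrArg star e0
        rwa [star_mul, hr1'] at this
      have := congrArg (fun A : H →L[ℂ] H => A v) e
      exact this.symm
    have hsqle : ∀ v, ‖d v‖ ^ 2 ≤ 1 / 2 * ‖r v‖ ^ 2 := by
      intro v
      rw [hdv, hbv]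
      have h3 : t * ‖b (r v)‖ ≤ (t * ‖b‖) * ‖r v‖ := by
        rw [mul_assoc]
        exact mul_le_mul_of_nonneg_left (b.le_opNorm _) htpos.le
      calc (t * ‖b (r v)‖) ^ 2 ≤ ((t * ‖b‖) * ‖r v‖) ^ 2 := by
            apply pow_le_pow_left₀ (by positivity) h3
        _ = (t * ‖b‖) ^ 2 * ‖r v‖ ^ 2 := by ring
        _ ≤ 1 / 2 * ‖r v‖ ^ 2 := mul_le_mul_of_nonneg_right htb (sq_nonneg _)
    have hsqle' : ∀ v, ‖(star d) v‖ ^ 2 ≤ 1 / 2 * ‖r' v‖ ^ 2 := by
      intro v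
      rw [hdsv, hbsv]
      have h3 : t * ‖(star b) (r' v)‖ ≤ (t * ‖b‖) * ‖r' v‖ := by
        rw [mul_assoc]
        have := (star b).le_opNorm (r' v)
        rw [norm_star] at this
        exact mul_le_mul_of_nonneg_left this htpos.le
      calc (t * ‖(star b) (r' v)‖) ^ 2 ≤ ((t * ‖b‖) * ‖r' v‖) ^ 2 := by
            apply pow_le_pow_left₀ (by positivity) h3
        _ = (t * ‖b‖) ^ 2 * ‖r' v‖ ^ 2 := by ring
        _ ≤ 1 / 2 * ‖r' v‖ ^ 2 := mul_le_mul_of_nonneg_right htb (sq_nonneg _)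
    have hadm : ∀ n, Adm M ξ S c (fun v => ∑ i ∈ Finset.range n, ‖a i v‖ ^ 2)
        (fun v => ∑ i ∈ Finset.range n, ‖(star (a i)) v‖ ^ 2) d := by
      intro n
      refine ⟨?_, ?_, ?_, ?_⟩
      · exact M.toStarSubalgebra.smul_mem hb _
      · have e1 : ‖S (d ξ)‖ = t * ‖S (b ξ)‖ := by
          show ‖S ((t : ℂ) • b ξ)‖ = _
          rw [map_smul, norm_smul, Complex.norm_real, Real.norm_eq_abs, abs_of_pos htpos]
        rw [e1, hdv, mul_pow, mul_pow]
        have : 0 ≤ t ^ 2 := sq_nonneg _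
        nlinarith
      · intro v
        have h3 := hR1 n v
        have h4 := hr4 v
        have h5 := hsqle v

        linarith
      · intro v
        have h3 := hL1 n v
        have h4 := hr4' v
        have h5 := hsqle' v

        linarith
    have hle : ∀ n, ‖d ξ‖ ^ 2 ≤ 2 * ‖a n ξ‖ ^ 2 := fun n => (ha n).2 d (hadm n)
    have h6 : ‖d ξ‖ ^ 2 ≤ 0 := by
      have h7 : Tendsto (fun n => 2 * ‖a n ξ‖ ^ 2) atTop (𝓝 (2 * 0)) := htend.const_mul 2
      rw [mul_zero] at h7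
      exact ge_of_tendsto h7 (Filter.Eventually.of_forall hle)
    rw [hdv, mul_pow] at h6
    have h8 : 0 < t ^ 2 * ‖b ξ‖ ^ 2 := by positivity
    linarith
  -- conclusion
  have hρr1 : star (ρ r) = ρ r := by rw [← hS.stm r hrM, hr1]
  have hρr2 : ρ r * ρ r = ρ r := by rw [← hS.mul r hrM r hrM, hr2]
  refine norm_le_of_dense hS _ _ (by positivity) fun x hx => ?_
  set b : H →L[ℂ] H := r' * x * r with hb
  have hbM : b ∈ M := mul_mem (mul_mem hrM' hx) hrM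
  have e1 : (r' * ρ r : H →L[ℂ] H) (x ξ) = b ξ := by
    show r' (ρ r (x ξ)) = r' (x (r ξ))
    have e2 := congrArg (fun A : H →L[ℂ] H => A ξ) (hS.comm r hrM x hx)
    have e3 : ρ r (x ξ) = x (ρ r ξ) := e2
    rw [e3, hS.vec r hrM]
  have e4 : r' * b * r = b := by
    rw [hb]
    calc r' * (r' * x * r) * r = (r' * r') * x * (r * r) := by simp only [mul_assoc]
      _ = r' * x * r := by rw [hr2', hr2]
  have e5 := hclaim b hbM e4
  have e6 : ‖b ξ‖ ≤ ‖x ξ‖ := by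
    rw [← e1]
    show ‖r' (ρ r (x ξ))‖ ≤ _
    exact (norm_proj_le hr1' hr2' _).trans (norm_proj_le hρr1 hρr2 _)
  have e7 : (S * (r' * ρ r) : H →L[ℂ] H) (x ξ) = S (b ξ) := by
    rw [← e1]; rfl
  rw [e7]
  have e8 : ‖S (b ξ)‖ ^ 2 ≤ (4 * κ * D * ‖x ξ‖) ^ 2 := by
    calc ‖S (b ξ)‖ ^ 2 ≤ c * ‖b ξ‖ ^ 2 := e5
      _ ≤ c * ‖x ξ‖ ^ 2 := by
          apply mul_le_mul_of_nonneg_left _ hcpos.le
          exact pow_le_pow_left₀ (norm_nonneg _) e6 2
      _ ≤ (4 * κ * D * ‖x ξ‖) ^ 2 := by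
          rw [hc]
          have : 0 ≤ κ ^ 2 * D ^ 2 * ‖x ξ‖ ^ 2 := by positivity
          nlinarith
  exact (sq_le_sq₀ (norm_nonneg _) (by positivity)).1 e8

end Pool.Agent.W696.KKS.Lg2
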